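import Pool.Agent.V8H57.RX.Diag

/-!
# The adversary argument at level zero
-/

set_option autoImplicit false

namespace Pool.Agent.V8H59.LZ

open Pool.Agent.NPC Pool.Agent.H620R2.Gauge Pool.Agent.V8H57.CX Pool.Agent.V8H57.RX

open Classical in
/-- the answer of the adversary: the next solution -/
noncomputable def ans (Z : Finset ℕ) (y : ℕ) : Option ℕ :=
  if y = 0 ∨ y ∈ Z then
    if h : (Z.filter (fun z => y < z)).Nonempty then
      some ((Z.filter (fun z => y < z)).min' h) else none
  else some 0

/-- the number a question is about -/
def nq (q : List Bool) : ℕ := num (unpair q.tail).2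

/-- `y` is the largest solution -/
def IsTop (Z : Finset ℕ) (y : ℕ) : Prop := (y = 0 ∨ y ∈ Z) ∧ ∀ z ∈ Z, z ≤ y

theorem ans_next {Z : Finset ℕ} {y z : ℕ} (hy : y = 0 ∨ y ∈ Z) (hz : z ∈ Z) (hlt : y < z)
    (hmin : ∀ w ∈ Z, y < w → z ≤ w) : ans Z y = some z := by
  classical
  have hne : (Z.filter (fun z => y < z)).Nonempty := ⟨z, Finset.mem_filter.2 ⟨hz, hlt⟩⟩
  unfold ans
  rw [if_pos hy, dif_pos hne]
  congr 1
  apply le_antisymm
  · exact Finset.min'_le _ _ (Finset.mem_filter.2 ⟨hz, hlt⟩)
  · apply Finset.le_min'
    intro w hw
    exact hmin w (Finset.mem_filter.1 hw).1 (Finset.mem_filter.1 hw).2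

theorem ans_bad {Z : Finset ℕ} {y : ℕ} (hy : ¬ (y = 0 ∨ y ∈ Z)) : ans Z y = some 0 := by
  unfold ans
  rw [if_neg hy]

theorem ans_none {Z : Finset ℕ} {y : ℕ} (h : ans Z y = none) : IsTop Z y := by
  classical
  unfold ans at h
  split at h
  · rename_i hy
    split at h
    · simp at h
    · rename_i hne
      refine ⟨hy, fun z hz => ?_⟩
      by_contra hlt
      exact hne ⟨z, Finset.mem_filter.2 ⟨hz, by omega⟩⟩
  · simp at h

theorem ans_some {Z : Finset ℕ} {y z : ℕ} (h : ans Z y = some z) :
    (z ∈ Z ∧ y < z) ∨ (z = 0 ∧ ¬ (y = 0 ∨ y ∈ Z)) := by
  classical
  unfold ans at h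
  split at h
  · split at h
    · rename_i hne
      left
      rw [Option.some.injEq] at h
      rw [← h]
      have := Finset.min'_mem _ hne
      exact ⟨(Finset.mem_filter.1 this).1, (Finset.mem_filter.1 this).2⟩
    · simp at h
  · rename_i hy
    right
    rw [Option.some.injEq] at h
    exact ⟨h.symm, hy⟩

/-- a new number -/
theorem exists_new (Y : List ℕ) (l : ℕ) : ∃ z, l < z ∧ z ≤ l + Y.length + 1 ∧ z ∉ Y := by
  by_contra hcon
  push Not at hcon
  have h1 : Finset.Ioc l (l + Y.length + 1) ⊆ Y.toFinset := by
    intro m hm
    rw [Finset.mem_Ioc] at hm
    exact List.mem_toFinset.2 (hcon m hm.1 hm.2)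
  have h2 := Finset.card_le_card h1
  rw [Nat.card_Ioc] at h2
  have h3 := List.toFinset_card_le Y
  omega

theorem length_ansCode {n z : ℕ} (h : z < 2 ^ n) : (ansCode (some z)).length ≤ n + 1 := by
  have : z.bits.length ≤ n := by
    rw [Nat.size_eq_bits_len]
    exact Nat.size_le.2 h
  show (true :: z.bits).length ≤ n + 1
  rw [List.length_cons]
  omega

section

variable (M : CAlg) (N : Alg) (x n c La B : ℕ) (A0 : Finset ℕ → Oracle)

/-- the claim for `k` further rounds -/
def Claim (k : ℕ) : Prop :=
  ∀ (r : ℕ) (a : List Bool) (Z : Finset ℕ) (Q : List (List Bool)) (Y : List ℕ) (l : ℕ),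
    a.length + k * (2 * n + 5) ≤ La → (∀ z ∈ Z, z ≤ l) → Y.length + k * (c + 1) ≤ B →
    l + (k + 1) * (B + 1) < 2 ^ n → (∀ q ∈ Q, nq q ∈ Y) →
    ∃ (Z' : Finset ℕ) (Q' : List (List Bool)), Z ⊆ Z' ∧ (∀ q ∈ Q, q ∈ Q') ∧
      Q'.length ≤ Q.length + k * c ∧ Z'.card ≤ Z.card + r + 1 ∧
      (∀ z ∈ Z', z ∉ Z → l < z ∧ z < 2 ^ n ∧ z ∉ Y) ∧
      ∀ (A : Oracle) (adv : Adversary), (∀ q ∈ Q', A q = A0 Z' q) →
        (∀ a y, adv a y = ans Z' y) →
        ∀ y, M.run {q | N.out A q = some [true]} adv x k a = some y →
          M.asks {q | N.out A q = some [true]} adv x k a ≤ r → ¬ IsTop Z' y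

variable {M N x n c La B A0}

/-- the computation stops -/
theorem claim_stop {k r : ℕ} {a : List Bool} {Z : Finset ℕ} {Q : List (List Bool)} {Y : List ℕ}
    {l : ℕ} (hZ : ∀ z ∈ Z, z ≤ l) (hY : Y.length ≤ B) (hl : l + (B + 1) < 2 ^ n)
    (y0 : ℕ) (hrun : ∀ S adv, M.run S adv x (k + 1) a = some y0) :
    ∃ (Z' : Finset ℕ) (Q' : List (List Bool)), Z ⊆ Z' ∧ (∀ q ∈ Q, q ∈ Q') ∧
      Q'.length ≤ Q.length + (k + 1) * c ∧ Z'.card ≤ Z.card + r + 1 ∧
      (∀ z ∈ Z', z ∉ Z → l < z ∧ z < 2 ^ n ∧ z ∉ Y) ∧
      ∀ (A : Oracle) (adv : Adversary), (∀ q ∈ Q', A q = A0 Z' q) →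
        (∀ a y, adv a y = ans Z' y) →
        ∀ y, M.run {q | N.out A q = some [true]} adv x (k + 1) a = some y →
          M.asks {q | N.out A q = some [true]} adv x (k + 1) a ≤ r → ¬ IsTop Z' y := by
  classical
  by_cases hT : IsTop Z y0
  · obtain ⟨z, h1, h2, h3⟩ := exists_new Y l
    refine ⟨insert z Z, Q, Finset.subset_insert _ _, fun q hq => hq, Nat.le_add_right _ _,
      (Finset.card_insert_le _ _).trans (by omega), ?_, ?_⟩
    · intro w hw hwZ
      rcases Finset.mem_insert.1 hw with rfl | hw
      · exact ⟨h1, by omega, h3⟩
      · exact absurd hw hwZ
    · intro A adv _ _ y hy _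
      rw [hrun, Option.some.injEq] at hy
      rw [← hy]
      rintro ⟨-, h4⟩
      have h5 := h4 z (Finset.mem_insert_self _ _)
      rcases hT.1 with h | h
      · omega
      · have := hZ y0 h
        omega
  · refine ⟨Z, Q, Finset.Subset.refl _, fun q hq => hq, Nat.le_add_right _ _, by omega,
      fun w hw hwZ => absurd hw hwZ, ?_⟩
    intro A adv _ _ y hy _
    rw [hrun, Option.some.injEq] at hy
    rw [← hy]
    exact hT

open Classical in
theorem claim (hA0 : ∀ (Z Z' : Finset ℕ) (q : List Bool), (nq q ∈ Z ↔ nq q ∈ Z') →
      A0 Z q = A0 Z' q)
    (hc : ∀ a q : List Bool, a.length ≤ La → M.D (pairBits x.bits a) = false :: q →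
      ∀ A, (asked N A q).length ≤ c) : ∀ k, Claim M N x n c La B A0 k := by
  intro k
  induction k with
  | zero =>
    intro r a Z Q Y l _ _ _ _ _
    refine ⟨Z, Q, Finset.Subset.refl _, fun q hq => hq, Nat.le_add_right _ _, by omega,
      fun w hw hwZ => absurd hw hwZ, ?_⟩
    intro A adv _ _ y hy _
    simp [CAlg.run] at hy
  | succ k ih =>
    intro r a Z Q Y l ha hZ hY hl hQ
    have e1 : (k + 1) * (2 * n + 5) = k * (2 * n + 5) + (2 * n + 5) := by ring
    have e2 : (k + 1) * (c + 1) = k * (c + 1) + c + 1 := by ring
    have e3 : (k + 1 + 1) * (B + 1) = (k + 1) * (B + 1) + (B + 1) := by ring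
    have e4 : (k + 1) * c = k * c + c := by ring
    have hl' : l + (B + 1) < 2 ^ n := by
      have : 0 ≤ (k + 1) * (B + 1) := Nat.zero_le _
      omega
    have hYB : Y.length ≤ B := by omega
    rcases hD : M.D (pairBits x.bits a) with _ | ⟨b, q⟩
    · refine claim_stop hZ hYB hl' 0 fun S adv => ?_
      rw [CAlg.run, hD]
    · cases b with
      | false =>
        -- a question to the oracle set
        have hlen := hc a q (by omega) hD (A0 Z)
        set Qn := asked N (A0 Z) q with hQn
        obtain ⟨bit, hbit⟩ : ∃ bit : Bool, bit = true ↔ N.out (A0 Z) q = some [true] :=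
          ⟨decide (N.out (A0 Z) q = some [true]), by rw [decide_eq_true_iff]⟩
        obtain ⟨Z', Q', h1, h2, h3, h6, h4, h5⟩ := ih r (pairBits [bit] a) Z (Qn ++ Q)
          (Qn.map nq ++ Y) l
          (by rw [length_pairBits]; simp only [List.length_singleton]; omega) hZ
          (by rw [List.length_append, List.length_map]; omega) (by omega)
          (by
            intro q' hq'
            rcases List.mem_append.1 hq' with h | h
            · exact List.mem_append.2 (Or.inl (List.mem_map.2 ⟨q', h, rfl⟩))
            · exact List.mem_append.2 (Or.inr (hQ q' h)))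
        refine ⟨Z', Q', h1, fun q' hq' => h2 q' (List.mem_append.2 (Or.inr hq')), ?_, h6, ?_, ?_⟩
        · rw [List.length_append] at h3
          omega
        · intro z hz hzZ
          obtain ⟨i1, i2, i3⟩ := h4 z hz hzZ
          exact ⟨i1, i2, fun h => i3 (List.mem_append.2 (Or.inr h))⟩
        · intro A adv hA hadv y hy has
          rw [(run_false _ _ adv x _ hD).1] at hy
          rw [(run_false _ _ adv x _ hD).2] at has
          have hout : N.out A q = N.out (A0 Z) q := by
            apply asked_congr
            intro q' hq'
            rw [hA q' (h2 q' (List.mem_append.2 (Or.inl hq')))]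
            apply hA0
            constructor
            · intro h
              by_contra hn
              exact (h4 _ h hn).2.2 (List.mem_append.2 (Or.inl (List.mem_map.2 ⟨q', hq', rfl⟩)))
            · exact fun h => h1 h
          have hdec : ∀ i : Decidable (q ∈ {q | N.out A q = some [true]}),
              @decide (q ∈ {q | N.out A q = some [true]}) i = bit := by
            intro i
            rw [Bool.eq_iff_iff, decide_eq_true_iff, hbit, Set.mem_ofPred_eq, hout]
          rw [hdec] at hy has
          exact h5 A adv hA hadv y hy has
      | true =>
        rcases q with _ | ⟨b, w⟩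
        · refine claim_stop hZ hYB hl' 0 fun S adv => ?_
          rw [CAlg.run, hD]
        · cases b with
          | true =>
            refine claim_stop hZ hYB hl' (num w) fun S adv => ?_
            exact (run_stop M S adv x _ hD).1
          | false =>
            rcases r with _ | r
            · refine ⟨Z, Q, Finset.Subset.refl _, fun q hq => hq, Nat.le_add_right _ _, by omega,
                fun w hw hwZ => absurd hw hwZ, ?_⟩
              intro A adv _ _ y _ has
              rw [(run_present _ _ adv x _ hD).2] at has
              omega
            by_cases hT : IsTop Z (num w)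
            · -- a new solution
              obtain ⟨z, z1, z2, z3⟩ := exists_new Y l
              have hzn : z < 2 ^ n := by omega
              have hwl : num w ≤ l := by
                rcases hT.1 with h | h
                · omega
                · exact hZ _ h
              obtain ⟨Z', Q', h1, h2, h3, h6, h4, h5⟩ := ih r
                (pairBits (ansCode (some z)) a) (insert z Z) Q Y z
                (by
                  have := length_ansCode hzn
                  rw [length_pairBits]; omega)
                (by
                  intro z' hz'
                  rcases Finset.mem_insert.1 hz' with rfl | hz'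
                  · exact le_rfl
                  · have := hZ z' hz'
                    omega)
                (by omega) (by omega) hQ
              have h7 := Finset.card_insert_le z Z
              refine ⟨Z', Q', (Finset.subset_insert _ _).trans h1, h2, by omega, by omega, ?_, ?_⟩
              · intro z' hz' hz'Z
                by_cases hz'z : z' = z
                · subst hz'z
                  exact ⟨z1, hzn, z3⟩
                · obtain ⟨i1, i2, i3⟩ := h4 z' hz' (by
                    rw [Finset.mem_insert]
                    push Not
                    exact ⟨hz'z, hz'Z⟩)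
                  exact ⟨by omega, i2, i3⟩
              · intro A adv hA hadv y hy has
                rw [(run_present _ _ adv x _ hD).1, hadv] at hy
                rw [(run_present _ _ adv x _ hD).2, hadv] at has
                have hans : ans Z' (num w) = some z := by
                  apply ans_next
                  · exact hT.1.imp id (fun h => h1 (Finset.mem_insert_of_mem h))
                  · exact h1 (Finset.mem_insert_self _ _)
                  · omega
                  · intro z' hz' hlt
                    by_cases hz'Z : z' ∈ insert z Z
                    · rcases Finset.mem_insert.1 hz'Z with rfl | h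
                      · exact le_rfl
                      · have := hT.2 z' h
                        omega
                    · exact (h4 z' hz' hz'Z).1.le
                rw [hans] at hy has
                exact h5 A adv hA hadv y hy (by omega)
            · by_cases hF : num w = 0 ∨ num w ∈ Z
              · -- a solution that is not optimal
                have hex : ∃ z, z ∈ Z ∧ num w < z ∧ ∀ w' ∈ Z, num w < w' → z ≤ w' := by
                  have hne : (Z.filter (fun z => num w < z)).Nonempty := by
                    by_contra hne
                    apply hT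
                    refine ⟨hF, fun z hz => ?_⟩
                    by_contra hlt
                    exact hne ⟨z, Finset.mem_filter.2 ⟨hz, by omega⟩⟩
                  have h6 := Finset.min'_mem _ hne
                  refine ⟨_, (Finset.mem_filter.1 h6).1, (Finset.mem_filter.1 h6).2, ?_⟩
                  intro w' hw' hlt
                  exact Finset.min'_le _ _ (Finset.mem_filter.2 ⟨hw', hlt⟩)
                obtain ⟨z, z1, z2, z3⟩ := hex
                have hzl := hZ z z1
                obtain ⟨Z', Q', h1, h2, h3, h6, h4, h5⟩ := ih r
                  (pairBits (ansCode (some z)) a) Z Q Y l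
                  (by
                    have := length_ansCode (show z < 2 ^ n by omega)
                    rw [length_pairBits]; omega)
                  hZ (by omega) (by omega) hQ
                refine ⟨Z', Q', h1, h2, by omega, by omega, h4, ?_⟩
                intro A adv hA hadv y hy has
                rw [(run_present _ _ adv x _ hD).1, hadv] at hy
                rw [(run_present _ _ adv x _ hD).2, hadv] at has
                have hans : ans Z' (num w) = some z := by
                  apply ans_next
                  · exact hF.imp id (fun h => h1 h)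
                  · exact h1 z1
                  · exact z2
                  · intro z' hz' hlt
                    by_cases hz'Z : z' ∈ Z
                    · exact z3 z' hz'Z hlt
                    · have := (h4 z' hz' hz'Z).1
                      omega
                rw [hans] at hy has
                exact h5 A adv hA hadv y hy (by omega)
              · -- not a solution
                obtain ⟨Z', Q', h1, h2, h3, h6, h4, h5⟩ := ih r
                  (pairBits (ansCode (some 0)) a) Z Q (num w :: Y) l
                  (by
                    have := length_ansCode (show 0 < 2 ^ n by positivity)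
                    rw [length_pairBits]; omega)
                  hZ (by rw [List.length_cons]; omega) (by omega)
                  (fun q hq => List.mem_cons_of_mem _ (hQ q hq))
                refine ⟨Z', Q', h1, h2, by omega, by omega, ?_, ?_⟩
                · intro z hz hzZ
                  obtain ⟨i1, i2, i3⟩ := h4 z hz hzZ
                  exact ⟨i1, i2, fun h => i3 (List.mem_cons_of_mem _ h)⟩
                · intro A adv hA hadv y hy has
                  rw [(run_present _ _ adv x _ hD).1, hadv] at hy
                  rw [(run_present _ _ adv x _ hD).2, hadv] at has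
                  have hans : ans Z' (num w) = some 0 := by
                    apply ans_bad
                    rintro (h | h)
                    · exact hF (Or.inl h)
                    · have hnZ : num w ∉ Z := fun h' => hF (Or.inr h')
                      exact (h4 _ h hnZ).2.2 (List.mem_cons_self ..)
                  rw [hans] at hy has
                  exact h5 A adv hA hadv y hy (by omega)

end

end Pool.Agent.V8H59.LZ
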