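import Pool.Agent.V8H57.CX.Defs

/-!
# The class `UP` relative to an oracle
-/

set_option autoImplicit false

namespace Pool.Agent.V8H59.LZ

open Pool.Agent.NPC Pool.Agent.H620R2.Gauge

/-- The language `L` is in `UP` relative to `A`: membership is given by the existence of a
certificate of polynomially bounded length, checked by a function computable in polynomial time
relative to `A`, and no string has two certificates. -/
def InUP (A : Oracle) (L : Set (List Bool)) : Prop :=
  ∃ (V : List Bool → List Bool) (p : Polynomial ℕ), IsFP A V ∧
    (∀ x, x ∈ L ↔ ∃ w : List Bool, w.length ≤ p.eval x.length ∧ V (pairBits w x) = [true]) ∧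
    ∀ x w w' : List Bool, V (pairBits w x) = [true] → V (pairBits w' x) = [true] → w = w'

end Pool.Agent.V8H59.LZ
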