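import Pool.Agent.V8H57.RX.Diag

/-!
# The oracle with hidden answers
-/

set_option autoImplicit false

namespace Pool.Agent.V8H59.LZ

open Pool.Agent.NPC Pool.Agent.H620R2.Gauge Pool.Agent.H620R2.Gauge.CC Pool.Agent.V8H57.CX
  Pool.Agent.V8H57.RX

/-! ### Jobs -/

/-- a job: a language of `PH`, a language of `PSPACE`, or an optimization problem -/
abbrev Job : Type := (Alg × Polynomial ℕ × ℕ) ⊕ (SAlg × Polynomial ℕ) ⊕ Task

instance : Countable Job := by
  have h1 := CC.poly_countable
  have h2 := CC.salg_countable
  infer_instance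

instance : Nonempty Job := ⟨Sum.inr (Sum.inr (Classical.arbitrary Task))⟩

/-- the length of the blocks -/
noncomputable def nbX : Polynomial ℕ := Polynomial.X + Polynomial.C 2

theorem nbX_eval (n : ℕ) : nbX.eval n = n + 2 := by
  unfold nbX
  simp only [Polynomial.eval_add, Polynomial.eval_X, Polynomial.eval_C]

/-- the action of the machine for an optimization problem: stop with an optimal solution -/
noncomputable def tAct (t : Task) (A : Oracle) (x : ℕ) : List Bool :=
  true :: true :: (best (t.C A) t.rho x).bits

/-- the bound for the next actions of an algorithm working on a memory -/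
noncomputable def sB (p : SAlg × Polynomial ℕ) : Polynomial ℕ := (act_length p.1 p.2).choose

theorem sB_spec (p : SAlg × Polynomial ℕ) : ∀ x a : List Bool,
    a.length ≤ p.2.eval x.length → (p.1.act (pairBits x a)).length ≤ (sB p).eval x.length :=
  (act_length p.1 p.2).choose_spec

/-- the question of a job -/
def Jq : Job → Oracle → List Bool → Prop
  | Sum.inl (M, p, k), A, z => Quant (p.eval z.length) (fun y => (M.out A y).getD []) k true z
  | Sum.inr (Sum.inl p), A, z => Acc p.1 (cut ((sB p).eval z.length) A) z
  | Sum.inr (Sum.inr t), A, z => (tAct t A (num (unpair z).1)).getD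
      (sc (nbX.eval (num (unpair z).1).bits.length) (chron (unpair z).2)).1.length false = true

open Classical in
/-- a number with the given property -/
noncomputable def pick (p : ℕ → Prop) : ℕ := if h : ∃ y, p y then h.choose else 0

theorem best_congr {C C' : ℕ → ℕ → Prop} (ρ : ℕ → ℕ) {x : ℕ} (h : ∀ y ≤ x, C x y ↔ C' x y) :
    best C ρ x = best C' ρ x := by
  have e : ∀ C : ℕ → ℕ → Prop, best C ρ x =
      pick (fun y => y ≤ x ∧ C x y ∧ ∀ z ≤ x, C x z → ρ z ≤ ρ y) := by
    intro C
    by_cases hex : ∃ y, y ≤ x ∧ C x y ∧ ∀ z ≤ x, C x z → ρ z ≤ ρ y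
    · unfold best pick
      rw [dif_pos hex, dif_pos hex]
    · unfold best pick
      rw [dif_neg hex, dif_neg hex]
  rw [e, e]
  congr 1
  funext y
  apply propext
  refine and_congr_right fun hy => ?_
  rw [h y hy]
  refine and_congr_right fun _ => ?_
  exact forall_congr' fun z => imp_congr_right fun hz => by rw [h z hz]

theorem Jq_local (j : Job) : ∃ P : Polynomial ℕ, ∀ (A A' : Oracle) (z : List Bool),
    (∀ q : List Bool, q.length ≤ P.eval z.length → A q = A' q) → (Jq j A z ↔ Jq j A' z) := by
  rcases j with ⟨M, p, k⟩ | p | t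
  · obtain ⟨qb, hqb⟩ := M.out_local
    refine ⟨qb.comp (Polynomial.X + Polynomial.C k * (Polynomial.C 2 * p + Polynomial.C 1)),
      fun A A' z h => ?_⟩
    show Quant _ _ _ _ _ ↔ Quant _ _ _ _ _
    apply quant_congr
    intro y hy
    obtain ⟨Q, -, hQ, hQ'⟩ := hqb A y
    rw [hQ' A']
    intro q hq
    refine (h q ?_).symm
    refine (hQ q hq).trans ?_
    rw [Polynomial.eval_comp]
    apply eval_mono
    simp only [Polynomial.eval_add, Polynomial.eval_mul, Polynomial.eval_C, Polynomial.eval_X]
    exact hy
  · refine ⟨sB p, fun A A' z h => ?_⟩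
    have hcut : cut ((sB p).eval z.length) A = cut ((sB p).eval z.length) A' := by
      funext q
      unfold cut
      split_ifs with hq
      · exact h q hq
      · rfl
    show Acc _ _ _ ↔ Acc _ _ _
    rw [hcut]
  · obtain ⟨P, hP⟩ := t.exists_bd
    refine ⟨P, fun A A' z h => ?_⟩
    have hx : (num (unpair z).1).bits.length ≤ z.length := by
      have h1 := length_bits_num (unpair z).1
      have h2 := unpair_len z
      omega
    have hb : best (t.C A) t.rho (num (unpair z).1) = best (t.C A') t.rho (num (unpair z).1) := by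
      apply best_congr
      intro y hy
      apply hP.loc _ _ _ _ (length_bits_mono hy)
      intro q hq
      exact h q (hq.trans (eval_mono P hx))
    show _ = _ ↔ _ = _
    unfold tAct
    rw [hb]

theorem exists_jobs : ∃ g : ℕ → Job, Function.Surjective g := exists_surjective_nat _

/-- an enumeration of the jobs -/
noncomputable def jb : ℕ → Job := exists_jobs.choose

theorem jb_surj : Function.Surjective jb := exists_jobs.choose_spec

/-- the bounds -/
noncomputable def Jb (e : ℕ) : Polynomial ℕ := (Jq_local (jb e)).choose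

theorem Jb_spec (e : ℕ) : ∀ (A A' : Oracle) (z : List Bool),
    (∀ q : List Bool, q.length ≤ (Jb e).eval z.length → A q = A' q) →
    (Jq (jb e) A z ↔ Jq (jb e) A' z) := (Jq_local (jb e)).choose_spec

/-! ### The oracle -/

open Classical in
/-- the oracle: the set `B` is hidden by the witnesses `W`, the set `S` is visible -/
noncomputable def hide (B : Oracle) (W : List Bool → List Bool) (S : Set (ℕ × ℕ)) : Oracle
  | [] => false
  | false :: w => B (unpair w).1 && decide ((unpair w).2 = W (unpair w).1)
  | true :: v => decide (((unpair v).1.length, num (unpair v).2) ∈ S)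

theorem unpair_fst_lt {w : List Bool} : (unpair w).1.length < (false :: w).length := by
  have := unpair_len w
  rw [List.length_cons]
  omega

theorem hide_congr {B B' : Oracle} {W W' : List Bool → List Bool} {S S' : Set (ℕ × ℕ)} {n : ℕ}
    (hB : ∀ u : List Bool, u.length < n → B u = B' u)
    (hW : ∀ u : List Bool, u.length < n → W u = W' u)
    (hS : ∀ e m : ℕ, m.bits.length < n → ((e, m) ∈ S ↔ (e, m) ∈ S')) (q : List Bool) (hq : q.length ≤ n) :
    hide B W S q = hide B' W' S' q := by
  classical
  rcases q with _ | ⟨b, w⟩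
  · rfl
  · cases b with
    | false =>
      have h1 := unpair_fst_lt (w := w)
      have h2 : (unpair w).1.length < n := by omega
      simp only [hide, hB _ h2, hW _ h2]
    | true =>
      have h1 := length_bits_num (unpair w).2
      have h3 := unpair_len w
      rw [List.length_cons] at hq
      have h2 := hS (unpair w).1.length (num (unpair w).2) (by omega)
      simp only [hide]
      exact decide_eq_decide.2 h2

/-- the property told by the hidden set -/
def Hq (W : List Bool → List Bool) (S : Set (ℕ × ℕ)) (e : ℕ) (B : Oracle) (z : List Bool) : Prop :=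
  Jq (jb e) (cut ((Jb e).eval z.length) (hide B W S)) z

/-- the hidden set -/
noncomputable def hid (W : List Bool → List Bool) (S : Set (ℕ × ℕ)) : Oracle :=
  Phi Jb (Hq W S) (fun _ => false)

/-- the oracle -/
noncomputable def orA (W : List Bool → List Bool) (S : Set (ℕ × ℕ)) : Oracle := hide (hid W S) W S

theorem Hq_congr {W W' : List Bool → List Bool} {S S' : Set (ℕ × ℕ)} (e : ℕ) {B B' : Oracle}
    {z : List Bool}
    (hB : ∀ u : List Bool, u.length < (H620R2.Gauge.code Jb e z).length → B u = B' u)
    (hW : ∀ u : List Bool, u.length < (H620R2.Gauge.code Jb e z).length → W u = W' u)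
    (hS : ∀ i m : ℕ, m.bits.length < (H620R2.Gauge.code Jb e z).length →
      ((i, m) ∈ S ↔ (i, m) ∈ S')) :
    Hq W S e B z ↔ Hq W' S' e B' z := by
  have h1 : cut ((Jb e).eval z.length) (hide B W S) =
      cut ((Jb e).eval z.length) (hide B' W' S') := by
    funext q
    unfold cut
    split_ifs with hq
    · refine hide_congr hB hW hS q ?_
      have := CC.lt_length_code Jb e z
      omega
    · rfl
  unfold Hq
  rw [h1]

theorem hid_code (W : List Bool → List Bool) (S : Set (ℕ × ℕ)) (e : ℕ) (z : List Bool) :
    hid W S (H620R2.Gauge.code Jb e z) = true ↔ Jq (jb e) (orA W S) z := by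
  unfold hid
  rw [CC.Phi_code Jb (Hq W S) _ (fun e A A' z h => Hq_congr e h (fun _ _ => rfl)
    (fun _ _ _ => Iff.rfl)) e z]
  show Jq (jb e) (cut ((Jb e).eval z.length) (orA W S)) z ↔ _
  apply Jb_spec
  intro q hq
  unfold cut
  rw [if_pos hq]

theorem hid_congr {W W' : List Bool → List Bool} {S S' : Set (ℕ × ℕ)} {n : ℕ}
    (hW : ∀ u : List Bool, u.length ≤ n → W u = W' u)
    (hS : ∀ e m : ℕ, m.bits.length ≤ n → ((e, m) ∈ S ↔ (e, m) ∈ S')) :
    ∀ u : List Bool, u.length ≤ n → hid W S u = hid W' S' u := by
  classical
  have key : ∀ (k : ℕ) (u : List Bool), u.length ≤ k → u.length ≤ n →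
      hid W S u = hid W' S' u := by
    intro k
    induction k with
    | zero =>
      intro u hu hun
      by_cases h : ∃ p : ℕ × List Bool, u = H620R2.Gauge.code Jb p.1 p.2
      · obtain ⟨⟨e, z⟩, rfl⟩ := h
        simp only at hu
        have := CC.lt_length_code Jb e z
        omega
      · have h' : ∀ e x, u ≠ H620R2.Gauge.code Jb e x := fun e x hx => h ⟨(e, x), hx⟩
        unfold hid
        rw [CC.Phi_not _ _ _ _ h', CC.Phi_not _ _ _ _ h']
    | succ k ih =>
      intro u hu hun
      by_cases h : ∃ p : ℕ × List Bool, u = H620R2.Gauge.code Jb p.1 p.2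
      · obtain ⟨⟨e, z⟩, rfl⟩ := h
        simp only at hu hun ⊢
        rw [Bool.eq_iff_iff]
        unfold hid
        rw [CC.Phi_code Jb (Hq W S) _ (fun e A A' z h => Hq_congr e h (fun _ _ => rfl)
          (fun _ _ _ => Iff.rfl)) e z, CC.Phi_code Jb (Hq W' S') _ (fun e A A' z h =>
          Hq_congr e h (fun _ _ => rfl) (fun _ _ _ => Iff.rfl)) e z]
        apply Hq_congr
        · intro u' hu'
          exact ih u' (by omega) (by omega)
        · intro u' hu'
          exact hW u' (by omega)
        · intro i m hm
          exact hS i m (by omega)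
      · have h' : ∀ e x, u ≠ H620R2.Gauge.code Jb e x := fun e x hx => h ⟨(e, x), hx⟩
        unfold hid
        rw [CC.Phi_not _ _ _ _ h', CC.Phi_not _ _ _ _ h']
  intro u hu
  exact key _ u le_rfl hu

end Pool.Agent.V8H59.LZ
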