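import Pool.Agent.V8H59.LZ.Stage

/-!
# The limit of the construction
-/

set_option autoImplicit false

namespace Pool.Agent.V8H59.LZ

open Pool.Agent.NPC Pool.Agent.H620R2.Gauge Pool.Agent.H620R2.Gauge.CC Pool.Agent.V8H57.CX
  Pool.Agent.V8H57.RX

instance : Countable CAlg := by
  have h1 : Countable {D : List Bool → List Bool | PolyTime D} := countable_polyTime.to_subtype
  have h2 := CC.poly_countable
  let F : CAlg → {D : List Bool → List Bool | PolyTime D} × Polynomial ℕ := fun M => (⟨M.D, M.poly⟩, M.p)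
  have hF : Function.Injective F := by
    rintro ⟨D, hD, q⟩ ⟨D', hD', q'⟩ h
    simp only [F, Prod.mk.injEq, Subtype.mk.injEq] at h
    obtain ⟨rfl, rfl⟩ := h
    rfl
  exact hF.countable

/-- The witnesses and the solutions exist. -/
theorem exists_WS : ∃ (W : List Bool → List Bool) (S : Set (ℕ × ℕ)),
    (∀ u, (W u).length = u.length) ∧
    (∀ e d : ℕ, ∃ Z : Finset ℕ, Z.card ≤ (pe e).eval (d + 1) + 1 ∧
      ∀ y, (e + 1, y) ∈ S → y.bits.length = d → y ∈ Z) ∧
    ∀ j : ℕ × CAlg × Alg, Rq j W S := by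
  have hne : Nonempty (ℕ × CAlg × Alg) :=
    ⟨(0, ⟨_, CC.const_polyTime [], 0⟩, ⟨_, CC.const_polyTime [], 0⟩)⟩
  obtain ⟨g, hg⟩ := exists_surjective_nat (ℕ × CAlg × Alg)
  choose nx hnx1 hnx2 hnx3 using stage
  let s0 : Sta := ⟨id, ∅, 0, fun _ => rfl, by simp, fun e d => ⟨∅, by simp, by simp⟩⟩
  let st : ℕ → Sta := fun t => Nat.rec s0 (fun t s => nx s (g t)) t
  have hst : ∀ t, st (t + 1) = nx (st t) (g t) := fun t => rfl
  have hb : ∀ t, (st t).b < (st (t + 1)).b := fun t => hnx2 (st t) (g t)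
  have hag : ∀ t, (st t).Agr (st (t + 1)).W (st (t + 1)).S := fun t => hnx1 (st t) (g t)
  have hmono : ∀ t u, t ≤ u → (st t).b ≤ (st u).b := by
    intro t u htu
    induction u, htu using Nat.le_induction with
    | base => exact le_rfl
    | succ u _ ih => exact ih.trans (hb u).le
  have hbt : ∀ t, t ≤ (st t).b := by
    intro t
    induction t with
    | zero => exact Nat.zero_le _
    | succ t ih => exact lt_of_le_of_lt ih (hb t)
  have hag' : ∀ t u, t ≤ u → (st t).Agr (st u).W (st u).S := by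
    intro t u htu
    induction u, htu using Nat.le_induction with
    | base => exact ⟨fun _ _ => rfl, fun _ _ _ => Iff.rfl⟩
    | succ u htu ih =>
      obtain ⟨h1, h2⟩ := hag u
      have h3 := hmono t u htu
      exact ⟨fun w hw => (h1 w (hw.trans h3)).trans (ih.1 w hw),
        fun i m hm => (h2 i m (hm.trans h3)).trans (ih.2 i m hm)⟩
  have hlim : ∀ t, (st t).Agr (fun u => (st u.length).W u)
      {p | p ∈ (st p.2.bits.length).S} := by
    intro t
    constructor
    · intro u hu
      rcases le_total u.length t with h | h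
      · exact ((hag' _ _ h).1 u (hbt _)).symm
      · exact (hag' _ _ h).1 u hu
    · intro i m hm
      rcases le_total m.bits.length t with h | h
      · exact ((hag' _ _ h).2 i m (hbt _)).symm
      · exact (hag' _ _ h).2 i m hm
  refine ⟨fun u => (st u.length).W u, {p | p ∈ (st p.2.bits.length).S}, fun u => (st _).hW u,
    fun e d => ?_, fun j => ?_⟩
  · obtain ⟨Z, h1, h2⟩ := (st d).hc e d
    refine ⟨Z, h1, fun y hy hyd => h2 y ?_ hyd⟩
    have h3 : (e + 1, y) ∈ (st y.bits.length).S := hy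
    rw [hyd] at h3
    exact h3
  obtain ⟨t, rfl⟩ := hg j
  exact hnx3 (st t) (g t) _ _ (hlim (t + 1))

end Pool.Agent.V8H59.LZ
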