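import Pool.Agent.V8H59.LZ.Use

/-!
# The obvious counterexample computation
-/

set_option autoImplicit false

namespace Pool.Agent.V8H59.LZ

open Pool.Agent.NPC Pool.Agent.H620R2.Gauge Pool.Agent.H620R2.Gauge.CC Pool.Agent.V8H57.CX
  Pool.Agent.V8H57.RX

/-- present the last counterexample, `p |x| + 1` times -/
def sD (p : Polynomial ℕ) (z : List Bool) : List Bool :=
  if (unpair z).2 = [] then [true, false]
  else if (unpair (unpair z).2).1 = [] then
    true :: true :: (unpair (unpair (unpair z).2).2).1.tail
  else if (chron (unpair z).2).length < p.eval (unpair z).1.length + 1 then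
    true :: false :: (unpair (unpair z).2).1.tail
  else true :: true :: (unpair (unpair z).2).1.tail

theorem poly_sD (p : Polynomial ℕ) : PolyTime (sD p) := by
  apply H622R2.polyTime_of_poly_list
  have h0 : Poly (fun z : List Bool => (unpair z).2) := Poly.snd poly_unpair
  have h1 : Poly (fun z : List Bool => unpair (unpair z).2) := poly_unpair.comp h0
  have h2 : Poly (fun z : List Bool => unpair (unpair (unpair z).2).2) :=
    poly_unpair.comp (Poly.snd h1)
  have hx : UPoly (fun z : List Bool => (unpair z).1.length) :=
    UPoly.length (Poly.fst poly_unpair)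
  have hn : Poly (fun z : List Bool => p.eval (unpair z).1.length + 1) :=
    Poly.succ (hx.eval p).toPoly
  unfold sD
  refine Poly.ite (Poly.decide_eq h0 (NPC.Poly.const _)) (NPC.Poly.const _) ?_
  refine Poly.ite (Poly.decide_eq (Poly.fst h1) (NPC.Poly.const _))
    (Poly.cons (NPC.Poly.const _) (Poly.cons (NPC.Poly.const _) (Poly.tail (Poly.fst h2)))) ?_
  exact Poly.ite (Poly.decide_lt (Poly.length (poly_chron.comp h0)) hn)
    (Poly.cons (NPC.Poly.const _) (Poly.cons (NPC.Poly.const _) (Poly.tail (Poly.fst h1))))
    (Poly.cons (NPC.Poly.const _) (Poly.cons (NPC.Poly.const _) (Poly.tail (Poly.fst h1))))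

/-- the machine -/
noncomputable def sM (p : Polynomial ℕ) : CAlg where
  D := sD p
  poly := poly_sD p
  p := p + Polynomial.C 2

theorem unpair_nil : unpair [] = ([], []) := by
  unfold unpair
  rfl

/-- The strategy with at most `r` further questions. -/
theorem sM_run (p : Polynomial ℕ) (S : Set (List Bool)) (adv : Adversary) (x : ℕ)
    {C : ℕ → ℕ → Prop} (hadv : adv.Correct C id x) (F : Finset ℕ)
    (hF : ∀ y, C x y → y = 0 ∨ y ∈ F) (hFc : F.card ≤ p.eval x.bits.length + 1) :
    ∀ (r j : ℕ) (l : List (List Bool)) (y : ℕ), j + r = p.eval x.bits.length + 1 →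
      l.length = j → ((l = [] ∧ y = 0) ∨ ∃ l', l = (true :: y.bits) :: l') → C x y →
      j ≤ (F.filter (fun z => z ≤ y)).card →
      (∃ y', (sM p).run S adv x (r + 1) (tcode l) = some y' ∧ Opt C id x y') ∧
        ∀ n, (sM p).asks S adv x n (tcode l) ≤ r := by
  intro r
  induction r with
  | zero =>
    intro j l y hj hl hy hC hcard
    have hl0 : l ≠ [] := by
      rintro rfl
      simp at hl
      omega
    obtain ⟨l', rfl⟩ : ∃ l', l = (true :: y.bits) :: l' := by
      rcases hy with ⟨h, -⟩ | h
      · exact absurd h hl0
      · exact h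
    have hD : (sM p).D (pairBits x.bits (tcode ((true :: y.bits) :: l'))) =
        true :: true :: y.bits := by
      show sD p _ = _
      unfold sD
      rw [unpair_pairBits]
      simp only
      rw [if_neg (by exact pairBits_ne_nil _ _), show tcode ((true :: y.bits) :: l') =
        pairBits (true :: y.bits) (tcode l') from rfl, unpair_pairBits]
      simp only [List.cons_ne_nil, if_false, List.tail_cons]
      rw [if_neg]
      rw [show pairBits (true :: y.bits) (tcode l') = tcode ((true :: y.bits) :: l') from rfl,
        chron_tcode, List.length_reverse, hl]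
      omega
    refine ⟨⟨y, ?_, ?_⟩, fun n => ?_⟩
    · rw [(run_stop _ S adv x _ hD).1, num_bits]
    · -- all solutions are used
      have hall : F.filter (fun z => z ≤ y) = F := by
        apply Finset.eq_of_subset_of_card_le (Finset.filter_subset _ _)
        omega
      intro z hz
      refine ⟨hC, fun hlt hCz => ?_⟩
      have hlt' : y < z := hlt
      rcases hF z hCz with h | h
      · omega
      · rw [← hall, Finset.mem_filter] at h
        omega
    · rcases n with _ | n
      · rw [CAlg.asks]
      · rw [(run_stop _ S adv x _ hD).2]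
  | succ r ih =>
    intro j l y hj hl hy hC hcard
    have hD : (sM p).D (pairBits x.bits (tcode l)) = true :: false :: y.bits := by
      show sD p _ = _
      unfold sD
      rw [unpair_pairBits]
      simp only
      rcases hy with ⟨rfl, rfl⟩ | ⟨l', rfl⟩
      · rw [if_pos (show tcode [] = [] from rfl)]
        simp
      · rw [if_neg (by exact pairBits_ne_nil _ _), show tcode ((true :: y.bits) :: l') =
          pairBits (true :: y.bits) (tcode l') from rfl, unpair_pairBits]
        simp only [List.cons_ne_nil, if_false, List.tail_cons]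
        rw [if_pos]
        rw [show pairBits (true :: y.bits) (tcode l') = tcode ((true :: y.bits) :: l') from rfl,
          chron_tcode, List.length_reverse, hl]
        omega
    have hnum : num y.bits = y := num_bits y
    have ho := hadv (tcode l) y
    rcases hans : adv (tcode l) y with _ | z
    · -- the number is optimal
      rw [hans] at ho
      have hO : Opt C id x y := ho
      have hD' : (sM p).D (pairBits x.bits (tcode ([] :: l))) = true :: true :: y.bits := by
        show sD p _ = _
        unfold sD
        rw [unpair_pairBits]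
        simp only
        rw [if_neg (by exact pairBits_ne_nil _ _), show tcode ([] :: l) =
          pairBits [] (tcode l) from rfl, unpair_pairBits]
        simp only [if_true]
        rcases hy with ⟨rfl, rfl⟩ | ⟨l', rfl⟩
        · rw [show tcode [] = ([] : List Bool) from rfl, unpair_nil]
          simp
        · rw [show tcode ((true :: y.bits) :: l') = pairBits (true :: y.bits) (tcode l') from rfl,
            unpair_pairBits]
          simp only [List.tail_cons]
      have hcode : pairBits (ansCode (adv (tcode l) (num y.bits))) (tcode l) = tcode ([] :: l) := by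
        rw [hnum, hans]
        rfl
      refine ⟨⟨y, ?_, hO⟩, fun n => ?_⟩
      · rw [(run_present _ S adv x _ hD).1, hcode, (run_stop _ S adv x _ hD').1, hnum]
      · rcases n with _ | n
        · rw [CAlg.asks]
          exact Nat.zero_le _
        · rw [(run_present _ S adv x _ hD).2, hcode]
          rcases n with _ | n
          · rw [CAlg.asks]
            omega
          · rw [(run_stop _ S adv x _ hD').2]
            omega
    · rw [hans] at ho
      obtain ⟨hzx, hB⟩ : z ≤ x ∧ ¬ Bm C id x y z := ho
      have hyz : y < z ∧ C x z := by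
        unfold Bm at hB
        push Not at hB
        exact hB hC
      have hz0 : z ≠ 0 := by omega
      have hzF : z ∈ F := (hF z hyz.2).resolve_left hz0
      have hcode : pairBits (ansCode (adv (tcode l) (num y.bits))) (tcode l) =
          tcode ((true :: z.bits) :: l) := by
        rw [hnum, hans]
        rfl
      obtain ⟨i1, i2⟩ := ih (j + 1) ((true :: z.bits) :: l) z (by omega)
        (by rw [List.length_cons, hl]) (Or.inr ⟨l, rfl⟩) hyz.2 (by
          have h1 : F.filter (fun z => z ≤ y) ⊂ F.filter (fun w => w ≤ z) := by
            rw [Finset.ssubset_iff_of_subset (fun w hw => by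
              rw [Finset.mem_filter] at hw ⊢
              exact ⟨hw.1, by omega⟩)]
            refine ⟨z, by rw [Finset.mem_filter]; exact ⟨hzF, le_rfl⟩, ?_⟩
            rw [Finset.mem_filter]
            rintro ⟨-, h⟩
            omega
          have := Finset.card_lt_card h1
          omega)
      refine ⟨?_, fun n => ?_⟩
      · rw [(run_present _ S adv x _ hD).1, hcode]
        exact i1
      · rcases n with _ | n
        · rw [CAlg.asks]
          exact Nat.zero_le _
        · rw [(run_present _ S adv x _ hD).2, hcode]
          have := i2 n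
          omega

/-- the problem number `e + 1` -/
theorem sM_computes {S : Set (ℕ × ℕ)} {e : ℕ} (hc : ∀ d : ℕ, ∃ Z : Finset ℕ,
    Z.card ≤ (pe e).eval (d + 1) + 1 ∧ ∀ y, (e + 1, y) ∈ S → y.bits.length = d → y ∈ Z)
    (O : Set (List Bool)) :
    (sM (pe e)).Computes O (CS S (e + 1)) id ∧ ∀ (x : ℕ) (adv : Adversary),
      adv.Correct (CS S (e + 1)) id x → ∀ n,
        (sM (pe e)).asks O adv x n [] ≤ (pe e).eval x.bits.length + 1 := by
  have key : ∀ (x : ℕ) (adv : Adversary), adv.Correct (CS S (e + 1)) id x →
      (∃ y', (sM (pe e)).run O adv x ((pe e).eval x.bits.length + 1 + 1) [] = some y' ∧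
        Opt (CS S (e + 1)) id x y') ∧
      ∀ n, (sM (pe e)).asks O adv x n [] ≤ (pe e).eval x.bits.length + 1 := by
    intro x adv hadv
    obtain ⟨F, hF1, hF2⟩ : ∃ F : Finset ℕ, F.card ≤ (pe e).eval x.bits.length + 1 ∧
        ∀ y, CS S (e + 1) x y → y = 0 ∨ y ∈ F := by
      rcases Nat.eq_zero_or_pos x.bits.length with h | h
      · refine ⟨∅, by simp, ?_⟩
        rintro y (hy | ⟨-, hy⟩)
        · exact Or.inl hy
        · omega
      · obtain ⟨Z, h1, h2⟩ := hc (x.bits.length - 1)
        rw [Nat.sub_add_cancel h] at h1
        refine ⟨Z, h1, ?_⟩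
        rintro y (hy | ⟨hy, hd⟩)
        · exact Or.inl hy
        · exact Or.inr (h2 y hy (by omega))
    exact sM_run (pe e) O adv x hadv F hF2 hF1 _ 0 [] 0 (Nat.zero_add _) rfl
      (Or.inl ⟨rfl, rfl⟩) (Or.inl rfl) (Nat.zero_le _)
  refine ⟨fun x adv hadv => ?_, fun x adv hadv => (key x adv hadv).2⟩
  obtain ⟨y, h1, h2⟩ := (key x adv hadv).1
  refine ⟨y, ?_, h2⟩
  have h3 : (sM (pe e)).p.eval x.bits.length = (pe e).eval x.bits.length + 1 + 1 := by
    show (pe e + Polynomial.C 2).eval _ = _
    rw [Polynomial.eval_add, Polynomial.eval_C]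
  rw [h3]
  exact h1

end Pool.Agent.V8H59.LZ
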