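import Pool.Agent.V8H59.LZ.Core
import Pool.Agent.V8H59.LZ.Hide

/-!
# One step of the construction
-/

set_option autoImplicit false

namespace Pool.Agent.V8H59.LZ

open Pool.Agent.NPC Pool.Agent.H620R2.Gauge Pool.Agent.H620R2.Gauge.CC Pool.Agent.V8H57.CX
  Pool.Agent.V8H57.RX

/-- the feasible solutions of the problem number `e`: the members with one digit less -/
def CS (S : Set (ℕ × ℕ)) (e x y : ℕ) : Prop :=
  y = 0 ∨ ((e, y) ∈ S ∧ y.bits.length + 1 = x.bits.length)

theorem exists_pe : ∃ g : ℕ → Polynomial ℕ, Function.Surjective g := by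
  have h2 := CC.poly_countable
  exact exists_surjective_nat _

/-- an enumeration of the polynomials -/
noncomputable def pe : ℕ → Polynomial ℕ := exists_pe.choose

theorem pe_surj : Function.Surjective pe := exists_pe.choose_spec

/-- the number of questions allowed for the problem number `e` -/
noncomputable def lim : ℕ → CAlg → ℕ → ℕ
  | 0, M, n => M.p.eval n
  | e + 1, _, n => (pe e).eval n

/-- the states of the construction -/
structure Sta : Type where
  /-- the witnesses -/
  W : List Bool → List Bool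
  /-- the solutions -/
  S : Set (ℕ × ℕ)
  /-- everything is final up to this length -/
  b : ℕ
  hW : ∀ u, (W u).length = u.length
  hS : ∀ e m, (e, m) ∈ S → m.bits.length ≤ b
  hc : ∀ e d : ℕ, ∃ Z : Finset ℕ, Z.card ≤ (pe e).eval (d + 1) + 1 ∧
    ∀ y, (e + 1, y) ∈ S → y.bits.length = d → y ∈ Z

/-- the pair agrees with the state, up to the bound of the state -/
def Sta.Agr (s : Sta) (W : List Bool → List Bool) (S : Set (ℕ × ℕ)) : Prop :=
  (∀ u : List Bool, u.length ≤ s.b → W u = s.W u) ∧
    ∀ e m : ℕ, m.bits.length ≤ s.b → ((e, m) ∈ S ↔ (e, m) ∈ s.S)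

/-- the requirement -/
def Rq (j : ℕ × CAlg × Alg) (W : List Bool → List Bool) (S : Set (ℕ × ℕ)) : Prop :=
  ∃ (x : ℕ) (adv : Adversary), adv.Correct (CS S j.1) id x ∧ ∀ y,
    j.2.1.run {q | j.2.2.out (orA W S) q = some [true]} adv x (j.2.1.p.eval x.bits.length) [] =
      some y →
    j.2.1.asks {q | j.2.2.out (orA W S) q = some [true]} adv x (j.2.1.p.eval x.bits.length) [] ≤
      lim j.1 j.2.1 x.bits.length → ¬ Opt (CS S j.1) id x y

theorem calg_length (M : CAlg) (p : Polynomial ℕ) : ∃ b : Polynomial ℕ, ∀ x a : List Bool,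
    a.length ≤ p.eval x.length → (M.D (pairBits x a)).length ≤ b.eval x.length := by
  obtain ⟨q, hq⟩ := (H622R2.poly_of_polyTime M.poly).sz_le
  refine ⟨q.comp (Polynomial.C 4 * (Polynomial.C 2 * Polynomial.X + Polynomial.C 1 + p) +
    Polynomial.C 1), fun x a ha => ?_⟩
  have h1 := length_lt_sz (M.D (pairBits x a))
  refine h1.le.trans ((hq _).trans ?_)
  rw [Polynomial.eval_comp]
  apply eval_mono
  have h2 := sz_listBool_le (pairBits x a)
  rw [length_pairBits] at h2
  simp only [Polynomial.eval_add, Polynomial.eval_mul, Polynomial.eval_C, Polynomial.eval_X]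
  omega

/-- the visible part during a step -/
noncomputable def A0 (s : Sta) (e n : ℕ) (Z : Finset ℕ) : Oracle :=
  hide (cut (n - 1) (hid s.W s.S)) s.W (s.S ∪ {p | p.1 = e ∧ p.2 ∈ Z})

theorem A0_congr (s : Sta) (e n : ℕ) (Z Z' : Finset ℕ) (q : List Bool)
    (h : nq q ∈ Z ↔ nq q ∈ Z') : A0 s e n Z q = A0 s e n Z' q := by
  classical
  rcases q with _ | ⟨b, w⟩
  · rfl
  · cases b with
    | false => rfl
    | true =>
      unfold nq at h
      rw [List.tail_cons] at h
      simp only [A0, hide, Set.mem_union, Set.mem_ofPred_eq, h]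

/-- a string of length `n` outside a short list -/
theorem exists_string (n : ℕ) (T : List (List Bool)) (h : T.length < 2 ^ n) :
    ∃ w : List Bool, w.length = n ∧ w ∉ T := by
  classical
  by_contra hcon
  push Not at hcon
  have h1 : ∀ f : Fin n → Bool, List.ofFn f ∈ T := fun f => hcon _ (List.length_ofFn)
  have h2 : (Finset.univ.image (fun f : Fin n → Bool => List.ofFn f)) ⊆ T.toFinset := by
    intro w hw
    obtain ⟨f, -, rfl⟩ := Finset.mem_image.1 hw
    exact List.mem_toFinset.2 (h1 f)
  have h3 := Finset.card_le_card h2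
  rw [Finset.card_image_of_injective _ List.ofFn_injective, Finset.card_univ, Fintype.card_fun,
    Fintype.card_bool, Fintype.card_fin] at h3
  have h4 := List.toFinset_card_le T
  omega

theorem length_le_sum (Q : List (List Bool)) : ∀ q ∈ Q, q.length ≤ (Q.map List.length).sum := by
  intro q hq
  exact List.single_le_sum (fun _ _ => Nat.zero_le _) _ (List.mem_map.2 ⟨q, hq, rfl⟩)

theorem length_bits_eq {n z : ℕ} (h1 : 2 ^ (n - 1) ≤ z) (h2 : z < 2 ^ n) (hn : 1 ≤ n) :
    z.bits.length = n := by
  rw [Nat.size_eq_bits_len]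
  apply le_antisymm
  · exact Nat.size_le.2 h2
  · have := Nat.lt_size.2 h1
    omega

theorem exists_params (M : CAlg) (N : Alg) (b0 : ℕ) : ∃ n c La : ℕ, b0 + 2 ≤ n ∧
    (∀ a q : List Bool, a.length ≤ La → M.D (pairBits (2 ^ n : ℕ).bits a) = false :: q →
      ∀ A, (asked N A q).length ≤ c) ∧
    M.p.eval (2 ^ n : ℕ).bits.length * (2 * n + 5) ≤ La ∧
    (M.p.eval (2 ^ n : ℕ).bits.length + 1) *
      (M.p.eval (2 ^ n : ℕ).bits.length * (c + 1) + 1) ≤ 2 ^ (n - 1) := by
  set pL : Polynomial ℕ := M.p * (Polynomial.C 2 * Polynomial.X + Polynomial.C 5) with hpL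
  obtain ⟨b, hb⟩ := calg_length M pL
  set cP : Polynomial ℕ := N.p.comp b with hcP
  obtain ⟨n, hn1, hn2⟩ := exists_large ((Polynomial.C 2 * ((M.p + Polynomial.C 1) *
    (M.p * (cP + Polynomial.C 1) + Polynomial.C 1))).comp (Polynomial.X + Polynomial.C 1)) (b0 + 2)
  have hx : (2 ^ n : ℕ).bits.length = n + 1 := by
    rw [Nat.size_eq_bits_len, Nat.size_pow]
  refine ⟨n, cP.eval (n + 1), pL.eval (n + 1), hn1, ?_, ?_, ?_⟩
  · intro a q ha hD A
    have h1 := hb (2 ^ n : ℕ).bits a (by rw [hx]; exact ha)
    rw [hD, List.length_cons, hx] at h1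
    refine (asked_length N A q).trans ?_
    rw [hcP, Polynomial.eval_comp]
    exact eval_mono _ (by omega)
  · rw [hx, hpL]
    simp only [Polynomial.eval_mul, Polynomial.eval_add, Polynomial.eval_C, Polynomial.eval_X]
    exact Nat.mul_le_mul_left _ (by omega)
  · rw [hx]
    simp only [Polynomial.eval_comp, Polynomial.eval_mul, Polynomial.eval_add, Polynomial.eval_C,
      Polynomial.eval_X] at hn2 ⊢
    have e : 2 ^ n = 2 * 2 ^ (n - 1) := by
      rw [← pow_succ', Nat.sub_add_cancel (by omega)]
    rw [e] at hn2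
    have := lt_of_mul_lt_mul_left hn2 (Nat.zero_le 2)
    exact this.le

open Classical in
theorem stage (s : Sta) (j : ℕ × CAlg × Alg) : ∃ s' : Sta,
    s.Agr s'.W s'.S ∧ s.b < s'.b ∧ ∀ W S, s'.Agr W S → Rq j W S := by
  obtain ⟨i, M, N⟩ := j
  obtain ⟨n, c, La, hn, hc, hLa, hB⟩ := exists_params M N s.b
  set T := M.p.eval (2 ^ n : ℕ).bits.length with hT
  have hx : (2 ^ n : ℕ).bits.length = n + 1 := by
    rw [Nat.size_eq_bits_len, Nat.size_pow]
  have e : 2 ^ n = 2 * 2 ^ (n - 1) := by
    rw [← pow_succ', Nat.sub_add_cancel (by omega)]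
  have hpos : 0 < 2 ^ (n - 1) := by positivity
  obtain ⟨Z, Q, -, -, hQ, hcard, hZ, hrun⟩ := claim (M := M) (N := N) (x := 2 ^ n) (n := n)
    (c := c) (La := La) (B := T * (c + 1)) (A0 := A0 s i n) (A0_congr s i n) hc T
    (lim i M (2 ^ n : ℕ).bits.length) [] ∅ [] [] (2 ^ (n - 1) - 1)
    (by simpa using hLa) (by simp) (by simp) (by omega) (by simp)
  have hZ' : ∀ z ∈ Z, z.bits.length = n ∧ z < 2 ^ n := by
    intro z hz
    obtain ⟨h1, h2, -⟩ := hZ z hz (by simp)
    exact ⟨length_bits_eq (by omega) h2 (by omega), h2⟩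
  have hQn : Q.length < 2 ^ n := by
    have h0 : T * c ≤ T * (c + 1) + 1 := by
      rw [Nat.mul_add]
      omega
    have h1 : T * (c + 1) + 1 ≤ (T + 1) * (T * (c + 1) + 1) :=
      Nat.le_mul_of_pos_left _ (Nat.succ_pos T)
    simp only [List.length_nil, Nat.zero_add] at hQ
    omega
  set F : List (List Bool) := Q.map (fun q => (unpair q.tail).2) with hF
  have hFl : F.length < 2 ^ n := by rw [hF, List.length_map]; exact hQn
  have hex : ∀ u : List Bool, n ≤ u.length → ∃ w : List Bool, w.length = u.length ∧ w ∉ F :=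
    fun u hu => exists_string _ _ (lt_of_lt_of_le hFl (Nat.pow_le_pow_right (by norm_num) hu))
  let W' : List Bool → List Bool := fun u => if h : n ≤ u.length then (hex u h).choose else s.W u
  have hW1 : ∀ u : List Bool, n ≤ u.length → (W' u).length = u.length ∧ W' u ∉ F := by
    intro u hu
    simp only [W', dif_pos hu]
    exact (hex u hu).choose_spec
  have hW2 : ∀ u : List Bool, u.length < n → W' u = s.W u := by
    intro u hu
    simp only [W', dif_neg (not_le.2 hu)]
  let s' : Sta := ⟨W', s.S ∪ {p | p.1 = i ∧ p.2 ∈ Z}, n + (Q.map List.length).sum, by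
      intro u
      by_cases hu : n ≤ u.length
      · exact (hW1 u hu).1
      · rw [hW2 u (by omega)]
        exact s.hW u, by
      rintro i' m (hm | hm)
      · have := s.hS i' m hm
        omega
      · have := (hZ' m hm.2).1
        omega, by
      intro i' d
      by_cases hd : d = n ∧ i' + 1 = i
      · obtain ⟨rfl, rfl⟩ := hd
        refine ⟨Z, ?_, ?_⟩
        · rw [hx, Finset.card_empty, Nat.zero_add] at hcard
          exact hcard
        · rintro y (hy | hy) hyd
          · have := s.hS _ y hy
            omega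
          · exact hy.2
      · obtain ⟨Z0, h1, h2⟩ := s.hc i' d
        refine ⟨Z0, h1, ?_⟩
        rintro y (hy | hy) hyd
        · exact h2 y hy hyd
        · exfalso
          have h3 := (hZ' y hy.2).1
          exact hd ⟨by omega, hy.1⟩⟩
  have hs'S : s'.S = s.S ∪ {p | p.1 = i ∧ p.2 ∈ Z} := rfl
  have hs'W : s'.W = W' := rfl
  have hs'b : s'.b = n + (Q.map List.length).sum := rfl
  have hlow : ∀ i' m : ℕ, m.bits.length < n →
      ((i', m) ∈ s.S ∪ {p | p.1 = i ∧ p.2 ∈ Z} ↔ (i', m) ∈ s.S) := by
    intro i' m hm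
    constructor
    · rintro (h | h)
      · exact h
      · have := (hZ' m h.2).1
        omega
    · exact fun h => Or.inl h
  refine ⟨s', ⟨fun u hu => hW2 u (by omega), fun i' m hm => hlow i' m (by omega)⟩, by omega, ?_⟩
  rintro W S ⟨hAW, hAS⟩
  have hagree : ∀ q ∈ Q, orA W S q = A0 s i n Z q := by
    intro q hq
    have hql := length_le_sum Q q hq
    rcases q with _ | ⟨b, w⟩
    · rfl
    · cases b with
      | false =>
        have h1 := unpair_fst_lt (w := w)
        by_cases hu : (unpair w).1.length < n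
        · have k1 : hid W S (unpair w).1 = hid s.W s.S (unpair w).1 := by
            apply hid_congr (n := n - 1) _ _ _ (by omega)
            · intro u hu'
              rw [hAW u (by omega), hs'W]
              exact hW2 u (by omega)
            · intro i' m hm
              rw [hAS i' m (by omega), hs'S]
              exact hlow i' m (by omega)
          have k2 : W (unpair w).1 = s.W (unpair w).1 := by
            rw [hAW _ (by omega), hs'W]
            exact hW2 _ hu
          have k3 : cut (n - 1) (hid s.W s.S) (unpair w).1 = hid s.W s.S (unpair w).1 := by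
            unfold cut
            rw [if_pos (by omega)]
          show (hid W S (unpair w).1 && decide ((unpair w).2 = W (unpair w).1)) =
            (cut (n - 1) (hid s.W s.S) (unpair w).1 && decide ((unpair w).2 = s.W (unpair w).1))
          rw [k1, k2, k3]
        · have k3 : cut (n - 1) (hid s.W s.S) (unpair w).1 = false := by
            unfold cut
            rw [if_neg (by omega)]
          have k4 : ¬ (unpair w).2 = W (unpair w).1 := by
            intro h
            apply (hW1 (unpair w).1 (by omega)).2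
            rw [← hs'W, ← hAW _ (by omega), ← h, hF]
            exact List.mem_map.2 ⟨false :: w, hq, rfl⟩
          show (hid W S (unpair w).1 && decide ((unpair w).2 = W (unpair w).1)) =
            (cut (n - 1) (hid s.W s.S) (unpair w).1 && decide ((unpair w).2 = s.W (unpair w).1))
          rw [k3, decide_eq_false k4, Bool.and_false, Bool.false_and]
      | true =>
        have h1 := length_bits_num (unpair w).2
        have h3 := unpair_len w
        rw [List.length_cons] at hql
        have h2 := hAS (unpair w).1.length (num (unpair w).2) (by omega)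
        simp only [orA, A0, hide]
        exact decide_eq_decide.2 h2
  have hC : ∀ y, CS S i (2 ^ n) y ↔ (y = 0 ∨ y ∈ Z) := by
    intro y
    unfold CS
    rw [hx]
    refine or_congr_right ?_
    constructor
    · rintro ⟨h1, h2⟩
      have h3 := (hAS i y (by omega)).1 h1
      rcases h3 with h3 | h3
      · have := s.hS i y h3
        omega
      · exact h3.2
    · intro h
      have h1 := (hZ' y h).1
      refine ⟨(hAS i y (by omega)).2 (Or.inr ⟨rfl, h⟩), by omega⟩
  have hle : ∀ z ∈ Z, z ≤ 2 ^ n := fun z hz => (hZ' z hz).2.le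
  refine ⟨2 ^ n, fun _ y => ans Z y, ?_, ?_⟩
  · intro a y
    show match ans Z y with
      | none => Opt (CS S i) id (2 ^ n) y
      | some z => z ≤ 2 ^ n ∧ ¬ Bm (CS S i) id (2 ^ n) y z
    rcases hans : ans Z y with _ | z
    · have hT := ans_none hans
      intro z _
      refine ⟨(hC y).2 hT.1, fun hlt hz => ?_⟩
      have hlt' : y < z := hlt
      rcases (hC z).1 hz with h | h
      · omega
      · have := hT.2 z h
        omega
    · rcases ans_some hans with ⟨h1, h2⟩ | ⟨h1, h2⟩
      · refine ⟨hle z h1, fun hB => ?_⟩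
        exact hB.2 h2 ((hC z).2 (Or.inr h1))
      · exact ⟨by omega, fun hB => h2 ((hC y).1 hB.1)⟩
  · intro y hy1 hy3 hy2
    refine hrun (orA W S) (fun _ y => ans Z y) hagree (fun _ _ => rfl) y hy1 hy3 ⟨?_, ?_⟩
    · exact (hC y).1 (hy2 0 (Nat.zero_le _)).1
    · intro z hz
      by_contra hlt
      exact (hy2 z (hle z hz)).2 (show y < z by omega) ((hC z).2 (Or.inr hz))

end Pool.Agent.V8H59.LZ
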