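import Pool.Agent.V8H59.LZ.Lim
import Pool.Agent.V8H59.LZ.Defs

/-!
# What the oracle can do
-/

set_option autoImplicit false

namespace Pool.Agent.V8H59.LZ

open Pool.Agent.NPC Pool.Agent.H620R2.Gauge Pool.Agent.H620R2.Gauge.CC Pool.Agent.V8H57.CX
  Pool.Agent.V8H57.RX

section use

variable {W : List Bool → List Bool} {S : Set (ℕ × ℕ)}

theorem orA_false (u w : List Bool) : orA W S (false :: pairBits u w) = true ↔
    hid W S u = true ∧ w = W u := by
  classical
  show hide (hid W S) W S (false :: pairBits u w) = true ↔ _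
  simp only [hide, unpair_pairBits, Bool.and_eq_true, decide_eq_true_eq]

theorem orA_true (e y : ℕ) : orA W S (true :: pairBits (List.replicate e true) y.bits) = true ↔
    (e, y) ∈ S := by
  classical
  show hide (hid W S) W S _ = true ↔ _
  simp only [hide, unpair_pairBits, List.length_replicate, num_bits, decide_eq_true_eq]

theorem hid_iff (hW : ∀ u, (W u).length = u.length) (u : List Bool) (m : ℕ)
    (hm : u.length ≤ m) : hid W S u = true ↔
    ∃ w : List Bool, w.length ≤ m ∧ orA W S (false :: pairBits u w) = true := by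
  constructor
  · intro h
    exact ⟨W u, by rw [hW]; exact hm, (orA_false u _).2 ⟨h, rfl⟩⟩
  · rintro ⟨w, -, h⟩
    exact ((orA_false u w).1 h).1

/-- a language decided by the hidden set is in `UP` -/
theorem inUP_of_code (hW : ∀ u, (W u).length = u.length) (e : ℕ) {L : Set (List Bool)}
    (h : ∀ z, z ∈ L ↔ hid W S (H620R2.Gauge.code Jb e z) = true) : InUP (orA W S) L := by
  have hQ : Poly (fun y : List Bool =>
      [false :: pairBits (H620R2.Gauge.code Jb e (unpair y).2) (unpair y).1]) :=
    Poly.cons (Poly.cons (NPC.Poly.const _) (H622R2.poly_pairBits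
      ((CC.poly_code Jb e).comp (Poly.snd poly_unpair)) (Poly.fst poly_unpair)))
      (NPC.Poly.const _)
  refine ⟨_, Polynomial.C (e + 2) + Jb e + Polynomial.X,
    IsFP.tt (A := orA W S) hQ (H := fun y => y.2) (Poly.snd Poly.id), fun z => ?_, ?_⟩
  swap
  · intro z w w' h1 h2
    simp only [List.map_cons, List.map_nil, unpair_pairBits, List.cons.injEq, and_true] at h1 h2
    rw [((orA_false _ _).1 h1).2, ((orA_false _ _).1 h2).2]
  have hlen : (H620R2.Gauge.code Jb e z).length ≤
      (Polynomial.C (e + 2) + Jb e + Polynomial.X).eval z.length := by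
    unfold H620R2.Gauge.code
    simp only [List.length_append, List.length_replicate, List.length_cons, Polynomial.eval_add,
      Polynomial.eval_C, Polynomial.eval_X]
    omega
  rw [h z, hid_iff hW _ _ hlen]
  simp only [List.map_cons, List.map_nil, unpair_pairBits, List.cons.injEq, and_true]

/-- `PH` is `UP` -/
theorem ph_up (hW : ∀ u, (W u).length = u.length) {L : Set (List Bool)}
    (h : IsPH (orA W S) L) : InUP (orA W S) L := by
  obtain ⟨V, p, k, ⟨M, hM⟩, hL⟩ := h
  obtain ⟨e, he⟩ := jb_surj (Sum.inl (M, p, k))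
  apply inUP_of_code hW e
  intro z
  rw [hid_code, he, hL z]
  have hV : V = fun y => (M.out (orA W S) y).getD [] := by
    funext y
    rw [hM y]
    rfl
  show _ ↔ Quant (p.eval z.length) (fun y => (M.out (orA W S) y).getD []) k true z
  rw [← hV]

/-- `PSPACE` is `UP` -/
theorem pspace_up (hW : ∀ u, (W u).length = u.length) {L : Set (List Bool)}
    (h : IsPSPACE (orA W S) L) : InUP (orA W S) L := by
  obtain ⟨M, p, hM⟩ := h
  obtain ⟨e, he⟩ := jb_surj (Sum.inr (Sum.inl (M, p)))
  apply inUP_of_code hW e
  intro x
  rw [hid_code, he]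
  show _ ↔ Acc M (cut ((sB (M, p)).eval x.length) (orA W S)) x
  have hbe := sB_spec (M, p)
  simp only at hbe
  obtain ⟨hM1, s, z, hs, hz, hL⟩ := hM x
  have hcong : ∀ s, M.Reach (cut ((sB (M, p)).eval x.length) (orA W S)) x s ↔
      M.Reach (orA W S) x s := by
    refine reach_congr (fun s => s.length ≤ p.eval x.length) hM1 ?_
    intro s q h1 h2
    have h3 := hbe x s h1
    rw [h2, List.length_cons] at h3
    unfold cut
    rw [if_pos (by omega)]
  constructor
  · intro hx
    refine ⟨s, (hcong s).2 hs, ?_⟩
    rw [hz, hL.1 hx]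
  · rintro ⟨t, ht, ht2⟩
    have hst := reach_unique hs ((hcong t).1 ht) ⟨_, hz⟩ ⟨_, ht2⟩
    rw [hst, ht2] at hz
    simp only [List.cons.injEq, true_and] at hz
    exact hL.2 hz.symm

/-! ### Positive levels -/

/-- the oracle set for the positive levels -/
def O1 (W : List Bool → List Bool) (S : Set (ℕ × ℕ)) : Set (List Bool) :=
  {q | ∃ w, q = false :: w ∧ hid W S w = true}

/-- the verdict of the verifier -/
def vB (q : List Bool) (b : Bool) : Bool := decide (q.head? = some false) && b

theorem inSigma_O1 (hW : ∀ u, (W u).length = u.length) (i : ℕ) (hi : i ≠ 0) :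
    InSigma (orA W S) i (O1 W S) := by
  obtain ⟨k, rfl⟩ : ∃ k, i = k + 1 := ⟨i - 1, by omega⟩
  set Q : List Bool → List (List Bool) :=
    fun y => [false :: pairBits (unpair y).2.tail (unpair y).1] with hQdef
  set H : List Bool × List Bool → List Bool :=
    fun y => [decide ((unpair y.1).2.head? = some false) && y.2.headD false] with hHdef
  have hQ : Poly Q := Poly.cons (Poly.cons (NPC.Poly.const _) (H622R2.poly_pairBits
    (Poly.tail (Poly.snd poly_unpair)) (Poly.fst poly_unpair))) (NPC.Poly.const _)
  have hH : Poly H := by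
    have h1 : Poly (fun y : List Bool × List Bool => unpair y.1) :=
      poly_unpair.comp (Poly.fst Poly.id)
    exact Poly.cons (Poly.and (Poly.decide_eq (Poly.head? (Poly.snd h1)) (NPC.Poly.const _))
      (poly_headD.comp (Poly.snd Poly.id))) (NPC.Poly.const _)
  refine ⟨fun z => H (fgt^[k] z, (Q (fgt^[k] z)).map (orA W S)), Polynomial.X, ?_, fun q => ?_⟩
  · exact IsFP.tt (A := orA W S) (Q := fun z => Q (fgt^[k] z))
      (H := fun y => H (fgt^[k] y.1, y.2)) (hQ.comp (poly_fgt_iter k))
      (hH.comp (Poly.pair ((poly_fgt_iter k).comp (Poly.fst Poly.id)) (Poly.snd Poly.id)))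
  · simp only [Quant, Polynomial.eval_X]
    have key : ∀ w : List Bool, (Quant q.length
        (fun z => H (fgt^[k] z, (Q (fgt^[k] z)).map (orA W S))) k false (pairBits w q) ↔
        H (pairBits w q, (Q (pairBits w q)).map (orA W S)) = [true]) := fun w =>
      quant_fgt q.length k (fun z => H (z, (Q z).map (orA W S))) false (pairBits w q)
    simp only [key]
    have h1 : ∀ w : List Bool, (H (pairBits w q, (Q (pairBits w q)).map (orA W S)) = [true] ↔
        q.head? = some false ∧ orA W S (false :: pairBits q.tail w) = true) := by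
      intro w
      simp only [hQdef, hHdef, unpair_pairBits, List.map_cons, List.map_nil, List.headD_cons,
        List.cons.injEq, and_true, Bool.and_eq_true, decide_eq_true_eq]
    simp only [h1]
    constructor
    · rintro ⟨u, rfl, hu⟩
      obtain ⟨w, h2, h3⟩ := (hid_iff hW u _ (show u.length ≤ (false :: u).length by simp)).1 hu
      exact ⟨w, h2, rfl, h3⟩
    · rintro ⟨w, -, h2, h3⟩
      rcases q with _ | ⟨b, u⟩
      · simp at h2
      · simp only [List.head?_cons, Option.some.injEq] at h2
        subst h2
        exact ⟨u, rfl, ((orA_false u w).1 h3).1⟩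

/-- optimization problems of the positive levels -/
theorem computes_pos {i : ℕ} {C : ℕ → ℕ → Prop} {ρ : ℕ → ℕ}
    (h : IsOptProblem (orA W S) i C ρ) : ∃ M : CAlg, M.Computes (O1 W S) C ρ ∧
      ∀ (x : ℕ) (adv : Adversary), adv.Correct C ρ x → ∀ n, M.asks (O1 W S) adv x n [] = 0 := by
  classical
  obtain ⟨⟨V, p, ⟨M, hM⟩, hC⟩, h0, -, ⟨f, hf, hρ⟩⟩ := h
  set t : Task := ⟨i, M, p, ⟨f, hf⟩⟩ with ht
  obtain ⟨e, he⟩ := jb_surj (Sum.inr (Sum.inr t))
  have hV : t.V (orA W S) = V := by
    funext z
    show (M.out (orA W S) z).getD [] = V z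
    rw [hM z]
    rfl
  have hCt : ∀ x y, t.C (orA W S) x y ↔ C x y := by
    intro x y
    rw [hC x y]
    unfold Task.C
    rw [hV]
  have hrho : t.rho = ρ := by
    funext y
    show num (f y.bits) = ρ y
    rw [hρ, num_bits]
  have hT : ∀ x : ℕ, Tells nbX Jb e (O1 W S) x (fun _ => tAct t (orA W S) x) := by
    intro x l
    have h1 : (false :: H620R2.Gauge.code Jb e (pairBits x.bits (tcode l)) ∈ O1 W S) ↔
        hid W S (H620R2.Gauge.code Jb e (pairBits x.bits (tcode l))) = true := by
      unfold O1
      simp only [Set.mem_ofPred_eq, List.cons.injEq, true_and, exists_eq_left']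
    rw [h1, hid_code, he]
    show (tAct t (orA W S) (num (unpair (pairBits x.bits (tcode l))).1)).getD
      (sc (nbX.eval (num (unpair (pairBits x.bits (tcode l))).1).bits.length)
        (chron (unpair (pairBits x.bits (tcode l))).2)).1.length false = true ↔ _
    rw [unpair_pairBits]
    simp only [num_bits, chron_tcode]
  obtain ⟨h1, h2⟩ := computes_of_win (nb := nbX) (R := Jb) (e := e) (p := 1 * (nbX + 1))
    (S := O1 W S) (C := C) (ρ := ρ) (act := fun x _ => tAct t (orA W S) x) (c := 0) hT 1 rfl (by
      intro x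
      refine ⟨1, by simp, ?_, Or.inr (Or.inr ⟨(best (t.C (orA W S)) t.rho x).bits, rfl, ?_⟩)⟩
      · unfold tAct
        have h5 := length_bits_mono (best_le (t.C (orA W S)) t.rho x)
        rw [nbX_eval]
        simp only [List.length_cons]
        omega
      · rw [num_bits, hrho]
        exact opt_best (h0 x) fun y _ => hCt x y)
  exact ⟨_, h1, fun x adv hadv n => Nat.le_zero.1 (h2 x adv hadv n)⟩

/-! ### Level zero -/

/-- the problems at level zero -/
theorem isOpt (e : ℕ) : IsOptProblem (orA W S) 0 (CS S e) id := by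
  refine ⟨?_, fun x => Or.inl rfl, ?_, ⟨_, polyTime_id, fun y => rfl⟩⟩
  · have hQ : Poly (fun y : List Bool =>
        [true :: pairBits (List.replicate e true) (unpair y).2]) :=
      Poly.cons (Poly.cons (NPC.Poly.const _) (H622R2.poly_pairBits (NPC.Poly.const _)
        (Poly.snd poly_unpair))) (NPC.Poly.const _)
    have hH : Poly (fun y : List Bool × List Bool =>
        [decide ((unpair y.1).2 = []) || (y.2.headD false &&
          decide ((unpair y.1).2.length + 1 = (unpair y.1).1.length))]) := by
      have h1 : Poly (fun y : List Bool × List Bool => unpair y.1) :=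
        poly_unpair.comp (Poly.fst Poly.id)
      refine Poly.cons (Poly.or (Poly.decide_eq (Poly.snd h1) (NPC.Poly.const _))
        (Poly.and (poly_headD.comp (Poly.snd Poly.id)) (Poly.decide_eq
          (Poly.succ (Poly.length (Poly.snd h1))) (Poly.length (Poly.fst h1)))))
        (NPC.Poly.const _)
    refine ⟨_, 0, IsFP.tt (A := orA W S) hQ hH, fun x y => ?_⟩
    simp only [Quant, List.map_cons, List.map_nil, unpair_pairBits, List.headD_cons,
      List.cons.injEq, and_true, Bool.or_eq_true, Bool.and_eq_true, decide_eq_true_eq, orA_true]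
    unfold CS
    refine or_congr_left ?_
    constructor
    · rintro rfl
      simp
    · intro h
      rw [← num_bits y, h]
      rfl
  · rintro x y (rfl | ⟨-, h⟩)
    · exact Nat.zero_le _
    · by_contra hlt
      have := length_bits_mono (show x ≤ y by omega)
      omega

theorem exists_alg {L : Set (List Bool)} (h : InSigma (orA W S) 0 L) :
    ∃ N : Alg, L = {q | N.out (orA W S) q = some [true]} := by
  obtain ⟨V, p, ⟨N, hN⟩, hL⟩ := h
  refine ⟨N, ?_⟩
  ext q
  rw [hL q]
  simp only [Quant, Set.mem_ofPred_eq, hN, Option.some.injEq]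

end use

theorem asks_le (M : CAlg) (S : Set (List Bool)) (adv : Adversary) (x : ℕ) :
    ∀ (n : ℕ) (a : List Bool), M.asks S adv x n a ≤ n := by
  intro n
  induction n with
  | zero => intro a; rw [CAlg.asks]
  | succ n ih =>
    intro a
    rcases hD : M.D (pairBits x.bits a) with _ | ⟨b, q⟩
    · rw [CAlg.asks, hD]
      exact Nat.zero_le _
    · cases b with
      | false =>
        rw [(run_false M S adv x _ hD).2]
        exact (ih _).trans (Nat.le_succ _)
      | true =>
        rcases q with _ | ⟨c, w⟩
        · rw [CAlg.asks, hD]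
          exact Nat.zero_le _
        · cases c with
          | false =>
            rw [(run_present M S adv x _ hD).2]
            have := ih (pairBits (ansCode (adv a (num w))) a)
            omega
          | true =>
            rw [(run_stop M S adv x _ hD).2]
            exact Nat.zero_le _

end Pool.Agent.V8H59.LZ
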